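import Pool.Agent.N236.RT.Stm

/-!
# Project RT, part LOC: the `p`-adic divisibility
-/

set_option autoImplicit false

namespace Pool.Agent.N129.RT

open Pool.Agent.N236.RT

section

variable (p : ℕ) [hp : Fact p.Prime]

theorem norm_coe_le (a : ℤ_[p]) : ‖algebraMap ℤ_[p] (PadicAlgCl p) a‖ ≤ 1 := by
  rw [IsScalarTower.algebraMap_apply ℤ_[p] ℚ_[p] (PadicAlgCl p)]
  have h : ‖algebraMap ℚ_[p] (PadicAlgCl p) (algebraMap ℤ_[p] ℚ_[p] a)‖
      = ‖algebraMap ℤ_[p] ℚ_[p] a‖ := PadicAlgCl.norm_extends p (algebraMap ℤ_[p] ℚ_[p] a)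
  rw [h]
  exact a.2

instance tf : Module.IsTorsionFree ℤ_[p] (PadicAlgCl p) := by
  rw [Module.isTorsionFree_iff_algebraMap_injective,
    IsScalarTower.algebraMap_eq ℤ_[p] ℚ_[p] (PadicAlgCl p)]
  exact (algebraMap ℚ_[p] (PadicAlgCl p)).injective.comp (IsFractionRing.injective ℤ_[p] ℚ_[p])

/-- Ring homomorphisms commute with the evaluation of integer polynomials. -/
theorem hom_ev {R S : Type*} [CommRing R] [CommRing S] (φ : R →+* S) (u v : R) (Q : Pol ℤ) :
    φ (ev u v Q) = ev (φ u) (φ v) Q := by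
  have h : (φ.toIntAlgHom.comp (MvPolynomial.aeval ![u, v])) = MvPolynomial.aeval ![φ u, φ v] := by
    apply MvPolynomial.algHom_ext
    intro i
    fin_cases i <;> simp
  have h2 := congrArg (fun ψ => ψ Q) h
  simpa [ev] using h2

/-- Values of integral polynomials are integral. -/
theorem norm_aeval_le (x : PadicAlgCl p) (hx : ‖x‖ ≤ 1) (h : Polynomial ℤ_[p]) :
    ‖Polynomial.aeval x h‖ ≤ 1 := by
  rw [Polynomial.aeval_eq_sum_range]
  refine IsUltrametricDist.norm_sum_le_of_forall_le_of_nonneg zero_le_one ?_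
  intro i _
  rw [Algebra.smul_def, norm_mul, norm_pow]
  exact mul_le_one₀ (norm_coe_le p _) (by positivity) (pow_le_one₀ (norm_nonneg _) hx)

/-- Integral elements have norm at most one. -/
theorem norm_le_one_of_int (x : PadicAlgCl p) (hx : IsIntegral ℤ_[p] x) : ‖x‖ ≤ 1 := by
  by_contra hc
  push Not at hc
  obtain ⟨f, hf, h0⟩ := hx
  have hn : f.natDegree ≠ 0 := by
    intro h
    have : f = 1 := Polynomial.eq_one_of_monic_natDegree_zero hf h
    rw [this] at h0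
    simp at h0
  have h1 : Polynomial.aeval x f = 0 := h0
  rw [Polynomial.aeval_eq_sum_range, Finset.sum_range_succ] at h1
  have h2 : ‖∑ i ∈ Finset.range f.natDegree, f.coeff i • x ^ i‖ ≤ ‖x‖ ^ (f.natDegree - 1) := by
    refine IsUltrametricDist.norm_sum_le_of_forall_le_of_nonneg (by positivity) ?_
    intro i hi
    rw [Finset.mem_range] at hi
    rw [Algebra.smul_def, norm_mul, norm_pow]
    calc ‖algebraMap ℤ_[p] (PadicAlgCl p) (f.coeff i)‖ * ‖x‖ ^ i ≤ 1 * ‖x‖ ^ i := by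
          gcongr
          exact norm_coe_le p _
      _ = ‖x‖ ^ i := one_mul _
      _ ≤ ‖x‖ ^ (f.natDegree - 1) := pow_le_pow_right₀ hc.le (by omega)
  have h3 : f.coeff f.natDegree = 1 := hf
  rw [h3, one_smul] at h1
  have h4 : x ^ f.natDegree = -∑ i ∈ Finset.range f.natDegree, f.coeff i • x ^ i :=
    eq_neg_of_add_eq_zero_right h1
  have h5 : ‖x‖ ^ f.natDegree ≤ ‖x‖ ^ (f.natDegree - 1) := by
    rw [← norm_pow, h4, norm_neg]
    exact h2
  have h6 : ‖x‖ ^ (f.natDegree - 1) < ‖x‖ ^ f.natDegree :=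
    pow_lt_pow_right₀ hc (by omega)
  linarith

/-- The Frobenius congruence for integral polynomials. -/
theorem expand_congr (f : Polynomial ℤ_[p]) : ∃ h : Polynomial ℤ_[p],
    Polynomial.expand ℤ_[p] p f - f ^ p = Polynomial.C (p : ℤ_[p]) * h := by
  have h1 : Polynomial.map (PadicInt.toZMod) (Polynomial.expand ℤ_[p] p f - f ^ p) = 0 := by
    rw [Polynomial.map_sub, Polynomial.map_expand, Polynomial.map_pow, ZMod.expand_card, sub_self]
  have h2 : Polynomial.C (p : ℤ_[p]) ∣ (Polynomial.expand ℤ_[p] p f - f ^ p) := by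
    rw [Polynomial.C_dvd_iff_dvd_coeff]
    intro i
    have h3 := congrArg (fun q => q.coeff i) h1
    simp only [Polynomial.coeff_map, Polynomial.coeff_zero] at h3
    have h4 : (Polynomial.expand ℤ_[p] p f - f ^ p).coeff i ∈
        RingHom.ker (PadicInt.toZMod (p := p)) := h3
    rw [PadicInt.ker_toZMod, PadicInt.maximalIdeal_eq_span_p, Ideal.mem_span_singleton] at h4
    exact h4
  exact h2

theorem norm_p : ‖(p : PadicAlgCl p)‖ = (p : ℝ)⁻¹ := by
  have h : ‖algebraMap ℚ_[p] (PadicAlgCl p) (p : ℚ_[p])‖ = ‖(p : ℚ_[p])‖ :=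
    PadicAlgCl.norm_extends p (p : ℚ_[p])
  rw [map_natCast] at h
  rw [h, Padic.norm_p]

/-- The Frobenius congruence at a point. -/
theorem norm_frob_sub (x : PadicAlgCl p) (hx : ‖x‖ ≤ 1) (f : Polynomial ℤ_[p]) :
    ‖Polynomial.aeval (x ^ p) f - (Polynomial.aeval x f) ^ p‖ ≤ (p : ℝ)⁻¹ := by
  obtain ⟨h, hh⟩ := expand_congr p f
  have h1 : Polynomial.aeval (x ^ p) f - (Polynomial.aeval x f) ^ p
      = (p : PadicAlgCl p) * Polynomial.aeval x h := by
    have h2 := congrArg (Polynomial.aeval x) hh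
    rw [map_sub, Polynomial.expand_aeval, map_pow, map_mul, Polynomial.aeval_C, map_natCast] at h2
    exact h2
  rw [h1, norm_mul, norm_p]
  have : ‖Polynomial.aeval x h‖ ≤ 1 := norm_aeval_le p x hx h
  have h0 : (0 : ℝ) ≤ (p : ℝ)⁻¹ := by positivity
  nlinarith

/-- Divisibility by powers of the minimal polynomial. -/
theorem pow_dvd (θ : PadicAlgCl p) (hθ : IsIntegral ℤ_[p] θ) (k : ℕ) : ∀ g : Polynomial ℤ_[p],
    (Polynomial.X - Polynomial.C θ) ^ k ∣ g.map (algebraMap ℤ_[p] (PadicAlgCl p)) →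
    (minpoly ℤ_[p] θ) ^ k ∣ g := by
  have h2 : (Polynomial.X - Polynomial.C θ) ∣
      (minpoly ℤ_[p] θ).map (algebraMap ℤ_[p] (PadicAlgCl p)) := by
    rw [Polynomial.dvd_iff_isRoot, Polynomial.IsRoot.def, Polynomial.eval_map_algebraMap]
    exact minpoly.aeval _ _
  obtain ⟨f1, hf1⟩ := h2
  have h3 : f1.eval θ ≠ 0 := by
    intro h
    have hd := congrArg (fun q => (Polynomial.derivative q).eval θ) hf1
    simp only [Polynomial.derivative_mul, Polynomial.eval_add, Polynomial.eval_mul,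
      Polynomial.derivative_sub, Polynomial.derivative_X, Polynomial.derivative_C,
      Polynomial.eval_sub, Polynomial.eval_X, Polynomial.eval_C, sub_self, zero_mul, add_zero,
      sub_zero, Polynomial.eval_one, one_mul, h] at hd
    have hirr := minpoly.irreducible (hθ.tower_top (A := ℚ_[p]))
    have hs : (minpoly ℚ_[p] θ).Separable := hirr.separable
    have hne := hs.aeval_derivative_ne_zero (minpoly.aeval ℚ_[p] θ)
    apply hne
    rw [minpoly.isIntegrallyClosed_eq_field_fractions' ℚ_[p] hθ,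
      Polynomial.derivative_map, Polynomial.aeval_map_algebraMap]
    rw [Polynomial.derivative_map, Polynomial.eval_map_algebraMap] at hd
    exact hd
  induction k with
  | zero => intro g _; simp
  | succ k ih =>
    intro g hg
    have h0 : Polynomial.aeval θ g = 0 := by
      obtain ⟨q, hq⟩ := hg
      rw [← Polynomial.eval_map_algebraMap, hq]
      simp [pow_succ]
    have h1 : minpoly ℤ_[p] θ ∣ g := minpoly.isIntegrallyClosed_dvd hθ h0
    obtain ⟨q, rfl⟩ := h1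
    rw [pow_succ']
    apply mul_dvd_mul_left
    apply ih
    rw [Polynomial.map_mul, hf1, pow_succ', mul_assoc] at hg
    have h4 := (mul_dvd_mul_iff_left (Polynomial.X_sub_C_ne_zero θ)).mp hg
    refine (Polynomial.prime_X_sub_C θ).pow_dvd_of_dvd_mul_left k ?_ h4
    intro h5
    rw [Polynomial.dvd_iff_isRoot] at h5
    exact h3 h5

/-- Claim A. -/
theorem claimA (h1 : S_TAY1) (θ : PadicAlgCl p) (hθ : IsIntegral ℤ_[p] θ)
    (U V : Polynomial ℤ_[p]) (Q : Pol ℤ) (k : ℕ)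
    (hQ : VO k (Polynomial.aeval θ U) (Polynomial.aeval θ V) Q) :
    ‖ev (Polynomial.aeval (θ ^ p) U) (Polynomial.aeval (θ ^ p) V) Q‖ ≤ ((p : ℝ)⁻¹) ^ k := by
  have hθ1 := norm_le_one_of_int p θ hθ
  set u := Polynomial.aeval θ U with hu
  set v := Polynomial.aeval θ V with hv
  set U' := U.map (algebraMap ℤ_[p] (PadicAlgCl p)) with hU'
  set V' := V.map (algebraMap ℤ_[p] (PadicAlgCl p)) with hV'
  -- the polynomial in one variable
  let g : Polynomial ℤ_[p] := ev U V Q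
  have hg : g.map (algebraMap ℤ_[p] (PadicAlgCl p)) = ev U' V' Q := by
    exact hom_ev (Polynomial.mapRingHom (algebraMap ℤ_[p] (PadicAlgCl p))) U V Q
  have hdU : (Polynomial.X - Polynomial.C θ) ∣ U' - Polynomial.C u := by
    rw [Polynomial.dvd_iff_isRoot, Polynomial.IsRoot.def, Polynomial.eval_sub,
      Polynomial.eval_C, hU', Polynomial.eval_map_algebraMap, hu, sub_self]
  have hdV : (Polynomial.X - Polynomial.C θ) ∣ V' - Polynomial.C v := by
    rw [Polynomial.dvd_iff_isRoot, Polynomial.IsRoot.def, Polynomial.eval_sub,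
      Polynomial.eval_C, hV', Polynomial.eval_map_algebraMap, hv, sub_self]
  -- a box for `Q`
  have hBd : Bd (Q.degreeOf 0) (Q.degreeOf 1) Q := by
    intro m hm
    exact ⟨MvPolynomial.monomial_le_degreeOf 0 hm, MvPolynomial.monomial_le_degreeOf 1 hm⟩
  have hT := h1 ℤ (Polynomial (PadicAlgCl p)) _ _ Q hBd (Polynomial.C u) (Polynomial.C v)
    (U' - Polynomial.C u) (V' - Polynomial.C v)
  rw [add_sub_cancel, add_sub_cancel, ← hg] at hT
  have hdvd : (Polynomial.X - Polynomial.C θ) ^ k ∣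
      g.map (algebraMap ℤ_[p] (PadicAlgCl p)) := by
    rw [hT]
    refine Finset.dvd_sum fun a _ => Finset.dvd_sum fun b _ => ?_
    by_cases hab : a + b < k
    · have h0 := hQ a b hab
      have : ev (Polynomial.C u) (Polynomial.C v) (D a b Q) = 0 := by
        have h3 : ev (Polynomial.C u) (Polynomial.C v) (D a b Q)
            = Polynomial.C (ev u v (D a b Q)) := (hom_ev Polynomial.C u v _).symm
        rw [h3, h0, map_zero]
      rw [this, zero_mul, zero_mul]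
      exact dvd_zero _
    · push Not at hab
      refine (pow_dvd_pow _ hab).trans ?_
      rw [pow_add, mul_assoc]
      exact Dvd.dvd.mul_left (mul_dvd_mul (pow_dvd_pow_of_dvd hdU a) (pow_dvd_pow_of_dvd hdV b)) _
  obtain ⟨h, hh⟩ := pow_dvd p θ hθ k g hdvd
  -- evaluate at `θ ^ p`
  have hev : ev (Polynomial.aeval (θ ^ p) U) (Polynomial.aeval (θ ^ p) V) Q
      = Polynomial.aeval (θ ^ p) g :=
    (hom_ev ((Polynomial.aeval (θ ^ p) : Polynomial ℤ_[p] →ₐ[ℤ_[p]] PadicAlgCl p) :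
        Polynomial ℤ_[p] →+* PadicAlgCl p) U V Q).symm
  rw [hev, hh, map_mul, map_pow, norm_mul, norm_pow]
  have hθp : ‖θ ^ p‖ ≤ 1 := by
    rw [norm_pow]
    exact pow_le_one₀ (norm_nonneg _) hθ1
  have e1 : ‖Polynomial.aeval (θ ^ p) (minpoly ℤ_[p] θ)‖ ≤ (p : ℝ)⁻¹ := by
    have := norm_frob_sub p θ hθ1 (minpoly ℤ_[p] θ)
    rw [minpoly.aeval, zero_pow hp.out.ne_zero, sub_zero] at this
    exact this
  have e2 : ‖Polynomial.aeval (θ ^ p) h‖ ≤ 1 := norm_aeval_le p _ hθp h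
  calc ‖Polynomial.aeval (θ ^ p) (minpoly ℤ_[p] θ)‖ ^ k * ‖Polynomial.aeval (θ ^ p) h‖
      ≤ ((p : ℝ)⁻¹) ^ k * 1 := by gcongr
    _ = ((p : ℝ)⁻¹) ^ k := mul_one _

/-- LOC: the `p`-adic divisibility. -/
theorem loc_aux (h0 : S_MONO) (h1 : S_TAY1) (h2 : S_TAY2) (T : ℕ) (P : Pol ℤ)
    (u v : PadicAlgCl p) (hu : ‖u‖ ≤ 1) (hv : ‖v‖ ≤ 1) (hP : VO T u v P) :
    ‖ev (u ^ p) (v ^ p) P‖ ≤ ((p : ℝ)⁻¹) ^ T := by
  obtain ⟨θ, hθ, hU, hV⟩ := h0 p u v hu hv
  have hθ1 := norm_le_one_of_int p θ hθ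
  rw [Algebra.adjoin_singleton_eq_range_aeval] at hU hV
  obtain ⟨U, rfl⟩ := hU
  obtain ⟨V, rfl⟩ := hV
  simp only [AlgHom.toRingHom_eq_coe, RingHom.coe_coe] at *
  have hθp : ‖θ ^ p‖ ≤ 1 := by
    rw [norm_pow]
    exact pow_le_one₀ (norm_nonneg _) hθ1
  have hBd : Bd (P.degreeOf 0) (P.degreeOf 1) P := by
    intro m hm
    exact ⟨MvPolynomial.monomial_le_degreeOf 0 hm, MvPolynomial.monomial_le_degreeOf 1 hm⟩
  set U1 := Polynomial.aeval (θ ^ p) U with hU1
  set V1 := Polynomial.aeval (θ ^ p) V with hV1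
  have hT := h1 ℤ (PadicAlgCl p) _ _ P hBd U1 V1
    ((Polynomial.aeval θ U) ^ p - U1) ((Polynomial.aeval θ V) ^ p - V1)
  rw [add_sub_cancel, add_sub_cancel] at hT
  rw [hT]
  have hn : (0 : ℝ) ≤ (p : ℝ)⁻¹ := by positivity
  have hn1 : (p : ℝ)⁻¹ ≤ 1 := inv_le_one_of_one_le₀ (by exact_mod_cast hp.out.one_lt.le)
  refine IsUltrametricDist.norm_sum_le_of_forall_le_of_nonneg (by positivity) fun a _ => ?_
  refine IsUltrametricDist.norm_sum_le_of_forall_le_of_nonneg (by positivity) fun b _ => ?_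
  have eU : ‖(Polynomial.aeval θ U) ^ p - U1‖ ≤ (p : ℝ)⁻¹ := by
    rw [norm_sub_rev]
    exact norm_frob_sub p θ hθ1 U
  have eV : ‖(Polynomial.aeval θ V) ^ p - V1‖ ≤ (p : ℝ)⁻¹ := by
    rw [norm_sub_rev]
    exact norm_frob_sub p θ hθ1 V
  have hD : VO (T - (a + b)) (Polynomial.aeval θ U) (Polynomial.aeval θ V) (D a b P) := by
    intro c d hcd
    rw [h2 ℤ P c d a b, ev, map_mul, MvPolynomial.aeval_C]
    have := hP (c + a) (d + b) (by omega)
    rw [ev] at this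
    rw [this, mul_zero]
  have eD := claimA p h1 θ hθ U V (D a b P) (T - (a + b)) hD
  rw [norm_mul, norm_mul, norm_pow, norm_pow]
  calc ‖ev U1 V1 (D a b P)‖ * ‖(Polynomial.aeval θ U) ^ p - U1‖ ^ a
        * ‖(Polynomial.aeval θ V) ^ p - V1‖ ^ b
      ≤ ((p : ℝ)⁻¹) ^ (T - (a + b)) * ((p : ℝ)⁻¹) ^ a * ((p : ℝ)⁻¹) ^ b := by gcongr
    _ = ((p : ℝ)⁻¹) ^ (T - (a + b) + a + b) := by rw [pow_add, pow_add]
    _ ≤ ((p : ℝ)⁻¹) ^ T := pow_le_pow_of_le_one hn hn1 (by omega)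

end

theorem t_loc (h0 : S_MONO) (h1 : S_TAY1) (h2 : S_TAY2) : S_LOC := by
  intro p hp T P u v hu hv hP
  exact loc_aux p h0 h1 h2 T P u v hu hv hP

end Pool.Agent.N129.RT
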